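import Mathlib

namespace Pool.Agent.MP_aa3754_al

variable {F V : Type*} [Field F] [AddCommGroup V] [Module F V]

/-- `N` is a cubic form: `N (x + l y) = N x + l D(x,y) + l^2 D(y,x) + l^3 N y`
with `D(x,y)` quadratic in `x` and linear in `y`. -/
def IsCubicForm (N : V → F) : Prop :=
  ∃ D : QuadraticMap F V (V →ₗ[F] F), ∀ (x y : V) (l : F),
    N (x + l • y) = N x + l * D x y + l ^ 2 * D y x + l ^ 3 * N y

/-- The complete linearization `N(v,u,w)`. -/
def fullLin (N : V → F) (v u w : V) : F :=
  N (v + u + w) - N (v + u) - N (v + w) - N (u + w) + N u + N v + N w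

/-- `T(r) = N(r,c,c)/2`. -/
def traceT (N : V → F) (c r : V) : F := fullLin N r c c / 2

/-- `S(r,q) = N(r,q,c)`. -/
def spurS (N : V → F) (c r q : V) : F := fullLin N r q c

/-- `(r,q) = T(r)T(q) - S(r,q) - Δ(r,q)`. -/
def pairing (N : V → F) (Δ : LinearMap.BilinForm F V) (c r q : V) : F :=
  traceT N c r * traceT N c q - spurS N c r q - Δ r q

/-- The sharp product `r # q = (r+q)^# - r^# - q^#`. -/
def sharpProd (sharp : QuadraticMap F V V) (r q : V) : V :=
  sharp (r + q) - sharp r - sharp q

/-- `(N, Δ, #, c)` is a generalized sharped cubic form. -/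
structure IsGenSharpedCubicForm (N : V → F) (Δ : LinearMap.BilinForm F V)
    (sharp : QuadraticMap F V V) (c : V) : Prop where
  cubic : IsCubicForm N
  base : N c = 1
  delta_symm : ∀ r q, Δ r q = Δ q r
  delta_base : ∀ r, Δ r c = 0
  sharp_pairing : ∀ r q,
    pairing N Δ c (sharpProd sharp r q) r + pairing N Δ c (sharp r) q = 3 * (fullLin N r r q / 2)
  sharp_sharp : ∀ r, sharp (sharp r) = (N r + Δ (sharp r) r) • r
  base_sharp : ∀ r, sharpProd sharp c r = traceT N c r • c - r

/-- The identity `(⋆)`. -/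
def DeltaIdentity (N : V → F) (Δ : LinearMap.BilinForm F V)
    (sharp : QuadraticMap F V V) (c : V) : Prop :=
  ∀ r q s, Δ (sharpProd sharp r q) s - Δ r (sharpProd sharp q s)
    = (1 / 3) * (traceT N c s * Δ r q - traceT N c r * Δ q s)

/-- The product `rq = (r # q + T(r) q + T(q) r - S(r,q) c) / 2`. -/
def algProd (N : V → F) (sharp : QuadraticMap F V V) (c r q : V) : V :=
  (1 / 2 : F) • (sharpProd sharp r q + traceT N c r • q + traceT N c q • r - spurS N c r q • c)

/-- The form `(·,·)` is invariant: `(rq,s) = (r,qs)`. -/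
def PairingInvariant (N : V → F) (Δ : LinearMap.BilinForm F V)
    (sharp : QuadraticMap F V V) (c : V) : Prop :=
  ∀ r q s, pairing N Δ c (algProd N sharp c r q) s = pairing N Δ c r (algProd N sharp c q s)

end Pool.Agent.MP_aa3754_al
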