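import Pool.Agent.MP_aa3754_al.Defs

namespace Pool.Agent.MP_aa3754_al

variable (F : Type*) [Field F]

def exN (x : Fin 3 → F) : F := x 0 * x 1 * x 2 + (1 / 3) * (x 2 * (x 0 - x 1) ^ 2)

def exDelta : LinearMap.BilinForm F (Fin 3 → F) :=
  LinearMap.mk₂ F (fun x y => (1 / 3) * ((x 0 - x 1) * (y 0 - y 1)))
    (fun _ _ _ => by simp only [Pi.add_apply]; ring)
    (fun _ _ _ => by simp only [Pi.smul_apply, smul_eq_mul]; ring)
    (fun _ _ _ => by simp only [Pi.add_apply]; ring)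
    (fun _ _ _ => by simp only [Pi.smul_apply, smul_eq_mul]; ring)

def exSharpBil : LinearMap.BilinMap F (Fin 3 → F) (Fin 3 → F) :=
  LinearMap.mk₂ F (fun x y => ![x 1 * y 2, x 0 * y 2, x 0 * y 1])
    (fun _ _ _ => by ext i; fin_cases i <;> simp <;> ring)
    (fun _ _ _ => by ext i; fin_cases i <;> simp <;> ring)
    (fun _ _ _ => by ext i; fin_cases i <;> simp <;> ring)
    (fun _ _ _ => by ext i; fin_cases i <;> simp <;> ring)

def exSharp : QuadraticMap F (Fin 3 → F) (Fin 3 → F) := (exSharpBil F).toQuadraticMap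

theorem exSharp_apply (x : Fin 3 → F) : exSharp F x = ![x 1 * x 2, x 0 * x 2, x 0 * x 1] := rfl

theorem exDelta_apply (x y : Fin 3 → F) :
    exDelta F x y = (1 / 3) * ((x 0 - x 1) * (y 0 - y 1)) := rfl

def exD3 (x x' : Fin 3 → F) : (Fin 3 → F) →ₗ[F] F where
  toFun y := y 0 * x 1 * x' 2 + x 0 * y 1 * x' 2 + x 0 * x' 1 * y 2 +
    (1 / 3) * (y 2 * (x 0 - x 1) * (x' 0 - x' 1) + 2 * x 2 * (x' 0 - x' 1) * (y 0 - y 1))
  map_add' _ _ := by simp only [Pi.add_apply]; ring
  map_smul' _ _ := by simp only [Pi.smul_apply, smul_eq_mul, RingHom.id_apply]; ring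

theorem exD3_apply (x x' y : Fin 3 → F) : exD3 F x x' y =
    y 0 * x 1 * x' 2 + x 0 * y 1 * x' 2 + x 0 * x' 1 * y 2 +
    (1 / 3) * (y 2 * (x 0 - x 1) * (x' 0 - x' 1) + 2 * x 2 * (x' 0 - x' 1) * (y 0 - y 1)) := rfl

def exDBil : LinearMap.BilinMap F (Fin 3 → F) ((Fin 3 → F) →ₗ[F] F) :=
  LinearMap.mk₂ F (exD3 F)
    (fun _ _ _ => LinearMap.ext fun _ => by
      simp only [exD3_apply, LinearMap.add_apply, Pi.add_apply]; ring)
    (fun _ _ _ => LinearMap.ext fun _ => by
      simp only [exD3_apply, LinearMap.smul_apply, Pi.smul_apply, smul_eq_mul]; ring)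
    (fun _ _ _ => LinearMap.ext fun _ => by
      simp only [exD3_apply, LinearMap.add_apply, Pi.add_apply]; ring)
    (fun _ _ _ => LinearMap.ext fun _ => by
      simp only [exD3_apply, LinearMap.smul_apply, Pi.smul_apply, smul_eq_mul]; ring)

theorem exN_cubic : IsCubicForm (exN F) := by
  refine ⟨(exDBil F).toQuadraticMap, fun x y l => ?_⟩
  have h : ∀ a b : Fin 3 → F, (exDBil F).toQuadraticMap a b = exD3 F a a b := fun _ _ => rfl
  simp only [h, exD3_apply, exN, Pi.add_apply, Pi.smul_apply, smul_eq_mul]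
  ring

def exC : Fin 3 → F := fun _ => 1

variable {F}

theorem ex_trace (h2 : (2 : F) ≠ 0) (r : Fin 3 → F) :
    traceT (exN F) (exC F) r = r 0 + r 1 + r 2 := by
  simp only [traceT, fullLin, exN, exC, Pi.add_apply]
  field_simp
  ring

theorem ex_pairing (h2 : (2 : F) ≠ 0) (h3 : (3 : F) ≠ 0) (r q : Fin 3 → F) :
    pairing (exN F) (exDelta F) (exC F) r q = r 0 * q 1 + r 1 * q 0 + r 2 * q 2 := by
  simp only [pairing, ex_trace h2, spurS, fullLin, exN, exC, Pi.add_apply, exDelta_apply]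
  field_simp
  ring

theorem ex_sharpProd (r q : Fin 3 → F) : sharpProd (exSharp F) r q =
    ![r 1 * q 2 + r 2 * q 1, r 0 * q 2 + r 2 * q 0, r 0 * q 1 + r 1 * q 0] := by
  ext i
  fin_cases i <;> simp [sharpProd, exSharp_apply] <;> ring

theorem ex_isGen (h2 : (2 : F) ≠ 0) (h3 : (3 : F) ≠ 0) :
    IsGenSharpedCubicForm (exN F) (exDelta F) (exSharp F) (exC F) where
  cubic := exN_cubic F
  base := by simp [exN, exC]
  delta_symm r q := by simp only [exDelta_apply]; ring
  delta_base r := by simp [exDelta_apply, exC]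
  sharp_pairing r q := by
    simp only [ex_pairing h2 h3, ex_sharpProd, exSharp_apply, fullLin, exN, Pi.add_apply]
    simp
    field_simp
    ring
  sharp_sharp r := by
    ext i
    fin_cases i <;> simp [exSharp_apply, exN, exDelta_apply] <;> ring
  base_sharp r := by
    ext i
    fin_cases i <;> simp [ex_sharpProd, ex_trace h2, exC] <;> ring

theorem ex_nondeg (h2 : (2 : F) ≠ 0) (h3 : (3 : F) ≠ 0) (r : Fin 3 → F)
    (h : ∀ q, pairing (exN F) (exDelta F) (exC F) r q = 0) : r = 0 := by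
  have h0 := h ![1, 0, 0]
  have h1 := h ![0, 1, 0]
  have h2' := h ![0, 0, 1]
  rw [ex_pairing h2 h3] at h0 h1 h2'
  simp at h0 h1 h2'
  ext i
  fin_cases i <;> simp [h0, h1, h2']

theorem ex_not_star (h2 : (2 : F) ≠ 0) (h3 : (3 : F) ≠ 0) :
    ¬ DeltaIdentity (exN F) (exDelta F) (exSharp F) (exC F) := by
  intro h
  have := h ![1, 0, 0] ![1, 0, 0] ![0, 0, 1]
  simp only [ex_sharpProd, ex_trace h2, exDelta_apply] at this
  simp at this
  field_simp at this
  apply h2
  linear_combination this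

end Pool.Agent.MP_aa3754_al
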