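import Mathlib

namespace Pool.Agent.MP_aa3754_al

variable {F W : Type*} [Field F] [AddCommGroup W] [Module F W]

theorem pseudo_polar (h2 : (2 : F) ≠ 0)
    (m : W →ₗ[F] W →ₗ[F] W) (φ : W →ₗ[F] W →ₗ[F] F)
    (hm : ∀ x y, m x y = m y x) (hφ : ∀ x y, φ x y = φ y x)
    (h : ∀ x, m (m x x) x = φ x x • x) (x y z : W) :
    m (m x y) z + m (m y z) x + m (m z x) y = φ x y • z + φ y z • x + φ z x • y := by
  have e1 := h (x + y + z)
  have e2 := h (x + y)
  have e3 := h (x + z)
  have e4 := h (y + z)
  have e5 := h x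
  have e6 := h y
  have e7 := h z
  simp only [map_add, LinearMap.add_apply, add_smul, smul_add] at e1 e2 e3 e4
  have hyx := hm y x
  have hzy := hm z y
  have hxz := hm x z
  have gyx := hφ y x
  have gzy := hφ z y
  have gxz := hφ x z
  simp only [hyx, hzy, hxz, gyx, gzy, gxz] at e1 e2 e3 e4
  have : (2 : F) • (m (m x y) z + m (m y z) x + m (m z x) y) =
      (2 : F) • (φ x y • z + φ y z • x + φ z x • y) := by
    linear_combination (norm := module) e1 - e2 - e3 - e4 + e5 + e6 + e7
  exact smul_right_injective W h2 this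

theorem pseudo_diag (h2 : (2 : F) ≠ 0)
    (m : W →ₗ[F] W →ₗ[F] W) (φ : W →ₗ[F] W →ₗ[F] F)
    (hm : ∀ x y, m x y = m y x) (hφ : ∀ x y, φ x y = φ y x)
    (h : ∀ x, m (m x x) x = φ x x • x) (x y : W) :
    φ (m x x) y = φ x (m x y) := by
  have P := pseudo_polar h2 m φ hm hφ h
  -- 2 L^2 + M = 2 x ⊗ f + φ
  have E1 : ∀ w, (2 : F) • m x (m x w) + m (m x x) w = (2 * φ x w) • x + φ x x • w := by
    intro w
    have := P x x w
    rw [hm (m x w) x, hm w x, hm (m x w) x, hφ w x] at this
    linear_combination (norm := module) this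
  -- M L + L M + φ L = x² ⊗ f + x ⊗ g + ψ
  have E3 : ∀ w, m (m x x) (m x w) + m x (m (m x x) w) + φ x x • m x w =
      φ x w • m x x + φ (m x x) w • x + φ (m x x) x • w := by
    intro w
    have := P x w (m x x)
    rw [h x, hm (m x w) (m x x), hm w (m x x), hm (m (m x x) w) x, hφ w (m x x)] at this
    simpa using this
  have hx3 : m x (m x x) = φ x x • x := by rw [hm x (m x x), h x]
  -- 4 L^3 = 3 φ L - ψ + x² ⊗ f + x ⊗ (2 f L - g)
  have E4 : ∀ w, (4 : F) • m x (m x (m x w)) = (3 * φ x x) • m x w - φ (m x x) x • w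
      + φ x w • m x x + (2 * φ x (m x w) - φ (m x x) w) • x := by
    intro w
    have a := E1 (m x w)
    have b := congrArg (m x) (E1 w)
    simp only [map_add, map_smul] at b
    have c := E3 w
    linear_combination (norm := module) a + b - c
  have E5 : ∀ w, (φ x (m x w) - φ (m x x) w) • m x x =
      (2 * φ x (m x (m x w)) - φ (m x x) (m x w) - φ x x * φ x w) • x := by
    intro w
    have a := E4 (m x w)
    have b := congrArg (m x) (E4 w)
    simp only [map_add, map_sub, map_smul, hx3] at b
    linear_combination (norm := module) a - b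
  by_contra hne
  have hd : φ x (m x y) - φ (m x x) y ≠ 0 := fun h0 => hne (by linear_combination -h0)
  obtain ⟨β, hβ⟩ : ∃ β : F, m x x = β • x := by
    refine ⟨(φ x (m x y) - φ (m x x) y)⁻¹ *
      (2 * φ x (m x (m x y)) - φ (m x x) (m x y) - φ x x * φ x y), ?_⟩
    rw [mul_smul, ← E5 y, smul_smul, inv_mul_cancel₀ hd, one_smul]
  have hx0 : x ≠ 0 := by
    rintro rfl
    simp at hne
  have hφx : φ x x = β ^ 2 := by
    have a := hx3
    rw [hβ, map_smul, hβ, smul_smul] at a
    have := smul_left_injective F hx0 a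
    linear_combination -this
  have g : ∀ w, φ (m x x) w = β * φ x w := by
    intro w
    rw [hβ, map_smul, LinearMap.smul_apply, smul_eq_mul]
  have k5 : ∀ w, φ x (m x (m x w)) = β * φ x (m x w) := by
    intro w
    have a := E5 w
    rw [g, g, hβ, smul_smul] at a
    have b : _ = _ := smul_left_injective F hx0 a
    apply mul_left_cancel₀ h2
    rw [hφx] at b
    linear_combination -b
  by_cases hb : β = 0
  · subst hb
    rw [zero_smul] at hβ
    have a := E4 y
    have b := congrArg (m x) (E1 y)
    simp only [hβ, hφx, map_add, map_smul, map_zero, LinearMap.zero_apply] at a b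
    have c : (2 * φ x (m x y)) • x = (0 : F) • x := by
      linear_combination (norm := module) (2 : F) • b - a
    have d := smul_left_injective F hx0 c
    apply hne
    rw [g]
    apply mul_left_cancel₀ h2
    linear_combination -d
  · have a := congrArg (φ x) (E4 y)
    simp only [map_add, map_sub, map_smul, smul_eq_mul] at a
    rw [k5, k5, hφ x (m x x), g, g, hφx] at a
    apply hne
    rw [g]
    apply mul_left_cancel₀ (pow_ne_zero 2 hb)
    linear_combination a

theorem pseudo_invariant (h2 : (2 : F) ≠ 0) (h3 : (3 : F) ≠ 0)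
    (m : W →ₗ[F] W →ₗ[F] W) (φ : W →ₗ[F] W →ₗ[F] F)
    (hm : ∀ x y, m x y = m y x) (hφ : ∀ x y, φ x y = φ y x)
    (h : ∀ x, m (m x x) x = φ x x • x) (x y z : W) :
    φ (m x y) z = φ x (m y z) := by
  have D := pseudo_diag h2 m φ hm hφ h
  have L : ∀ a b w, 2 * φ (m a b) w = φ a (m b w) + φ b (m a w) := by
    intro a b w
    have e := D (a + b) w
    simp only [map_add, LinearMap.add_apply] at e
    rw [hm b a] at e
    linear_combination e - D a w - D b w
  have a := L x y z
  have b := L y z x
  rw [hφ (m y z) x, hm z x, hφ z (m y x), hm y x] at b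
  apply mul_left_cancel₀ h3
  linear_combination a - b

end Pool.Agent.MP_aa3754_al
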