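import Pool.Agent.MP_aa3754_al.Defs
import Pool.Agent.MP_aa3754_al.Pseudo

namespace Pool.Agent.MP_aa3754_al

variable {F V : Type*} [Field F] [AddCommGroup V] [Module F V]

theorem cubic_trilinear {N : V → F} (hN : IsCubicForm N) :
    ∃ G : V →ₗ[F] V →ₗ[F] V →ₗ[F] F, (∀ v u w, fullLin N v u w = G v u w) ∧
      ∀ r, 6 * N r = G r r r := by
  obtain ⟨D, hD⟩ := hN
  have hadd : ∀ x y, N (x + y) = N x + D x y + D y x + N y := by
    intro x y
    simpa using hD x y 1
  have key : ∀ v u w, fullLin N v u w = D.polarBilin v u w := by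
    intro v u w
    simp only [fullLin, QuadraticMap.polarBilin_apply_apply, QuadraticMap.polar,
      LinearMap.sub_apply]
    rw [hadd (v + u) w, hadd v w, hadd u w, map_add (D w)]
    ring
  refine ⟨D.polarBilin, key, fun r => ?_⟩
  have h0 : N 0 = 0 := by
    have := hadd 0 0
    simp only [add_zero, map_zero] at this
    linear_combination -this
  have hs : ∀ l : F, N (l • r) = l ^ 3 * N r := by
    intro l
    have := hD 0 r l
    simpa [h0] using this
  have h2 : N (r + r) = 8 * N r := by
    have := hs 2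
    rw [two_smul] at this
    linear_combination this
  have h3 : N (r + r + r) = 27 * N r := by
    have := hs 3
    rw [show (3 : F) • r = r + r + r by module] at this
    linear_combination this
  rw [← key]
  simp only [fullLin, h2, h3]
  ring

theorem core_invariant (h2 : (2 : F) ≠ 0) (h3 : (3 : F) ≠ 0)
    (P : V →ₗ[F] V →ₗ[F] V) (T : V →ₗ[F] F) (c : V)
    (hP : ∀ x y, P x y = P y x) (hTc : T c = 3) (hc : ∀ r, P c r = T r • c - r)
    (hcube : ∀ u, T u = 0 → ∃ n : F,
      P (P u u - (T (P u u) / 3) • c) u = (-2 * (T (P u u) / 3)) • u + n • c)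
    (r q s : V) :
    T (P r q) * T s - T (P (P r q) s) = T r * T (P q s) - T (P r (P q s)) := by
  have hker : ∀ x : V, x - (T x / 3) • c ∈ LinearMap.ker T := by
    intro x
    simp only [LinearMap.mem_ker, map_sub, map_smul, hTc, smul_eq_mul]
    field_simp
    ring
  let m : LinearMap.ker T →ₗ[F] LinearMap.ker T →ₗ[F] LinearMap.ker T :=
    LinearMap.mk₂ F (fun x y => ⟨P x y - (T (P x y) / 3) • c, hker _⟩)
      (fun _ _ _ => Subtype.ext (by simp; module))
      (fun _ _ _ => Subtype.ext (by simp; module))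
      (fun _ _ _ => Subtype.ext (by simp; module))
      (fun _ _ _ => Subtype.ext (by simp; module))
  let φ : LinearMap.ker T →ₗ[F] LinearMap.ker T →ₗ[F] F :=
    LinearMap.mk₂ F (fun x y => -2 * (T (P x y) / 3))
      (fun _ _ _ => by simp; ring)
      (fun _ _ _ => by simp; ring)
      (fun _ _ _ => by simp; ring)
      (fun _ _ _ => by simp; ring)
  have hm : ∀ x y, (m x y : V) = P x y - (T (P x y) / 3) • c := fun _ _ => rfl
  have hφ : ∀ x y, φ x y = -2 * (T (P x y) / 3) := fun _ _ => rfl
  have inv := pseudo_invariant h2 h3 m φ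
    (fun x y => Subtype.ext (by rw [hm, hm, hP x y]))
    (fun x y => by rw [hφ, hφ, hP x y])
    (fun x => by
      obtain ⟨n, hn⟩ := hcube x x.2
      apply Subtype.ext
      have hx : T x = 0 := x.2
      rw [hm, hm, hn, Submodule.coe_smul, hφ]
      simp only [map_add, map_smul, hx, hTc, smul_eq_mul]
      have : (-2 * (T (P x x) / 3) * 0 + n * 3) / 3 = n := by field_simp; ring
      rw [this]
      module)
  have inv0 : ∀ u v w : V, T u = 0 → T v = 0 → T w = 0 →
      T (P (P u v) w) = T (P u (P v w)) := by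
    intro u v w hu hv hw
    have e := inv ⟨u, hu⟩ ⟨v, hv⟩ ⟨w, hw⟩
    rw [hφ, hφ, hm, hm] at e
    simp only [map_sub, map_smul, LinearMap.sub_apply, LinearMap.smul_apply, hP u c, hc,
      hu, hw, smul_eq_mul, hTc] at e
    field_simp at e
    apply mul_left_cancel₀ h3
    linear_combination -e
  obtain ⟨u, hu, a, rfl⟩ : ∃ u, T u = 0 ∧ ∃ a : F, r = a • c + u :=
    ⟨_, hker r, T r / 3, by abel⟩
  obtain ⟨v, hv, b, rfl⟩ : ∃ u, T u = 0 ∧ ∃ a : F, q = a • c + u :=
    ⟨_, hker q, T q / 3, by abel⟩
  obtain ⟨w, hw, g, rfl⟩ : ∃ u, T u = 0 ∧ ∃ a : F, s = a • c + u :=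
    ⟨_, hker s, T s / 3, by abel⟩
  have e := inv0 u v w hu hv hw
  have hc' : ∀ r, P r c = T r • c - r := fun r => by rw [hP, hc]
  simp only [map_add, map_sub, map_smul, LinearMap.add_apply, LinearMap.sub_apply,
    LinearMap.smul_apply, hc, hc', hu, hv, hw, hTc, smul_eq_mul]
  linear_combination -e

variable {N : V → F} {Δ : LinearMap.BilinForm F V} {sharp : QuadraticMap F V V} {c : V}

theorem star_key (h2 : (2 : F) ≠ 0) (h3 : (3 : F) ≠ 0)
    (h : IsGenSharpedCubicForm N Δ sharp c) (r q s : V) :
    2 * (pairing N Δ c (algProd N sharp c r q) s - pairing N Δ c r (algProd N sharp c q s)) =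
      -3 * (Δ (sharpProd sharp r q) s - Δ r (sharpProd sharp q s)
        - (1 / 3) * (traceT N c s * Δ r q - traceT N c r * Δ q s)) := by
  obtain ⟨G, hG, hG6⟩ := cubic_trilinear h.cubic
  have G12 : ∀ x y z, G x y z = G y x z := by
    intro x y z
    rw [← hG, ← hG]
    simp only [fullLin]
    rw [add_comm y x]
    ring
  have G23 : ∀ x y z, G x y z = G x z y := by
    intro x y z
    rw [← hG, ← hG]
    simp only [fullLin]
    rw [add_right_comm x z y, add_comm z y]
    ring
  let T : V →ₗ[F] F := (1 / 2 : F) • G c c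
  have hT : ∀ x, traceT N c x = T x := by
    intro x
    simp only [traceT, hG, T, LinearMap.smul_apply, smul_eq_mul]
    rw [G12 x c c, G23 c x c]
    ring
  have hGc : ∀ x, G c c x = 2 * T x := by
    intro x
    simp only [T, LinearMap.smul_apply, smul_eq_mul]
    field_simp
  have hGc' : ∀ x, G c x c = 2 * T x := fun x => by rw [G23, hGc]
  have hGc'' : ∀ x, G x c c = 2 * T x := fun x => by rw [G12, hGc']
  let P : V →ₗ[F] V →ₗ[F] V := sharp.polarBilin
  have hP : ∀ x y, sharpProd sharp x y = P x y := fun _ _ => rfl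
  have Psymm : ∀ x y, P x y = P y x := fun x y => QuadraticMap.polar_comm _ x y
  have hsh : ∀ x, sharp x = (1 / 2 : F) • P x x := by
    intro x
    have : P x x = 2 • sharp x := QuadraticMap.polar_self sharp x
    rw [this, ← Nat.cast_smul_eq_nsmul F, smul_smul]
    simp [h2]
  have hTc : T c = 3 := by
    have := hG6 c
    rw [h.base, hGc] at this
    apply mul_left_cancel₀ h2
    linear_combination -this
  have hc : ∀ x, P c x = T x • c - x := fun x => by rw [← hP, ← hT, h.base_sharp]
  have hc' : ∀ x, P x c = T x • c - x := fun x => by rw [Psymm, hc]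
  have Δc : ∀ x, Δ x c = 0 := h.delta_base
  have Δc' : ∀ x, Δ c x = 0 := fun x => by rw [h.delta_symm, Δc]
  have hpair : ∀ x y, pairing N Δ c x y = T x * T y - G x y c - Δ x y := by
    intro x y
    simp only [pairing, hT, spurS, hG]
  have hTPd : ∀ x, T (P x x) = G x x c - 2 * Δ x x := by
    intro x
    have e := h.sharp_pairing x c
    rw [hpair, hpair, hP, hsh, hc', hG] at e
    simp only [map_sub, map_smul, LinearMap.sub_apply, LinearMap.smul_apply, smul_eq_mul, hTc,
      hGc', hGc'', Δc, Δc'] at e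
    field_simp at e
    linear_combination e
  have hTP : ∀ x y, T (P x y) = G x y c - 2 * Δ x y := by
    intro x y
    have e := hTPd (x + y)
    simp only [map_add, LinearMap.add_apply] at e
    rw [Psymm y x, G12 y x c, h.delta_symm y x] at e
    apply mul_left_cancel₀ h2
    linear_combination e - hTPd x - hTPd y
  have hN : ∀ x, N x = G x x x / 6 := by
    intro x
    have h6 : (6 : F) ≠ 0 := by
      rw [show (6 : F) = 2 * 3 by norm_num]
      exact mul_ne_zero h2 h3
    rw [← hG6]
    field_simp
  have hcube : ∀ u, T u = 0 → ∃ n : F,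
      P (P u u - (T (P u u) / 3) • c) u = (-2 * (T (P u u) / 3)) • u + n • c := by
    intro u hu
    obtain ⟨t, ht⟩ : ∃ t, t = T (P u u) / 3 := ⟨_, rfl⟩
    obtain ⟨w, hw⟩ : ∃ w, w = P u u - t • c := ⟨_, rfl⟩
    have hTw : T w = 0 := by
      rw [hw, ht]
      simp only [map_sub, map_smul, hTc, smul_eq_mul]
      field_simp
      ring
    have huu : P u u = t • c + w := by rw [hw]; abel
    have hS : G u u c = 3 * t + 2 * Δ u u := by
      have := hTP u u
      rw [ht]
      field_simp
      linear_combination -this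
    rw [← ht, ← hw]
    refine ⟨-2 * (G u u u / 6 + (1 / 2) * Δ w u), ?_⟩
    have e1 := h.sharp_sharp u
    have e2 := h.sharp_sharp (c + u)
    have hS1 : G u c u = 3 * t + 2 * Δ u u := by rw [G23, hS]
    have hS2 : G c u u = 3 * t + 2 * Δ u u := by rw [G12, hS1]
    simp only [hsh, hN, map_add, map_sub, map_smul, LinearMap.add_apply, LinearMap.sub_apply,
      LinearMap.smul_apply, smul_eq_mul, huu, hc, hc', hu, hTw, hTc, Δc, Δc', hGc, hGc', hGc'',
      hS, hS1, hS2, Psymm u w] at e1 e2
    have h8 : (8 : F) ≠ 0 := by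
      rw [show (8 : F) = 2 ^ 3 by norm_num]
      exact pow_ne_zero _ h2
    have h6 : (6 : F) ≠ 0 := by
      rw [show (6 : F) = 2 * 3 by norm_num]
      exact mul_ne_zero h2 h3
    linear_combination (norm := skip) (2 : F) • e1 - (2 : F) • e2
    match_scalars <;> field_simp <;> ring
  have inv := core_invariant h2 h3 P T c Psymm hTc hc hcube r q s
  simp only [hpair, algProd, hP, hT, spurS, hG]
  simp only [map_add, map_sub, map_smul, LinearMap.add_apply, LinearMap.sub_apply,
      LinearMap.smul_apply, smul_eq_mul, hTc, Δc, Δc', hGc', hGc'']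
  have a1 := hTP (P r q) s
  have a2 := hTP r (P q s)
  field_simp
  linear_combination inv + a1 - a2

theorem star_iff (h2 : (2 : F) ≠ 0) (h3 : (3 : F) ≠ 0)
    (h : IsGenSharpedCubicForm N Δ sharp c) :
    DeltaIdentity N Δ sharp c ↔ PairingInvariant N Δ sharp c := by
  constructor
  · intro H r q s
    have e := star_key h2 h3 h r q s
    rw [H r q s] at e
    apply mul_left_cancel₀ h2
    linear_combination e
  · intro H r q s
    have e := star_key h2 h3 h r q s
    rw [H r q s] at e
    apply mul_left_cancel₀ h3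
    linear_combination e

end Pool.Agent.MP_aa3754_al
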